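import Pool.Agent.H49.SDP.Targets

/-! Row FIN3S (MP_c62aed_lc, semidefinite relaxations): width three, from the core. -/

set_option autoImplicit false

namespace Pool.Agent.H58.SDP

open Finset Pool.Agent.H49.SDP
open Pool.Agent.H1.LP (Clause viol Loc Sys Agree supp ip kk)
open Pool.Agent.H96.KX (S_X3)

theorem pf_FIN3S : S_FIN3S := by
  classical
  intro hX hC hP ε hε
  obtain ⟨R0, E, B0, hR0, hE, hX1⟩ := hX ε hε
  obtain ⟨q, K, γ, c, hq, hγ, hc, n₀, hn⟩ := hP R0 E B0 hR0 hE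
  refine ⟨c, hc, K, γ, hγ, n₀, fun n hnn => ?_⟩
  obtain ⟨B, hB0, hB1, hBE, hBq, hBK, hpar⟩ := hn n hnn
  obtain ⟨T, Ys, hT, hYA, hYs⟩ := hX1 B hB0
  obtain ⟨Y, m, phi, hY, h1, h2⟩ := hC B (R0 * B) (B / E) q n ε T Ys
    (Nat.mul_pos hR0 hB1) hBE hq hBq hT hYA hYs
  refine ⟨Y, m, phi, hY, ?_, ?_⟩
  · intro a
    obtain ⟨g1, g2, g3, g4⟩ := h1 a
    exact ⟨g1, g2.trans hBK, g3, g4⟩
  · intro M P hW
    have h3 := h2 M P (univ.filter (fun a => SRefuted P (phi a) ((2 : ℝ) ^ (-(γ * n)))))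
      ((2 : ℝ) ^ (-(γ * n))) (by positivity) (fun a ha => (mem_filter.1 ha).2)
    exact hpar (∑ j, (((P j).ord : ℝ) + 1) ^ 2) _ Y (Nat.cast_nonneg Y) hW h3

end Pool.Agent.H58.SDP
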